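import Pool.Agent.H52.CV.SetV

/-!
MP_816b90_co: an anticonnected set which is not a corner and not a major vertex of a prism, and
whose common neighbourhood is not a clique, has an even pair among its common neighbours whose
contraction does not leave the class of graphs without odd hole, antihole and odd prism.
The notions of the problem are written as in the frozen statement `S09779`.
-/

set_option autoImplicit false

namespace Pool.Agent.Results.MP_816b90_co.CleanVertex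

/-- `G` contains no odd hole (induced cycle of odd length at least five). -/
def NoOddHole {n : ℕ} (G : SimpleGraph (Fin n)) : Prop :=
  ¬ ∃ k : ℕ, 5 ≤ k ∧ k % 2 = 1 ∧ Nonempty (SimpleGraph.cycleGraph k ↪g G)

/-- `G` contains no antihole (complement of a cycle of length at least five). -/
def NoAntihole {n : ℕ} (G : SimpleGraph (Fin n)) : Prop :=
  ¬ ∃ k : ℕ, 5 ≤ k ∧ Nonempty ((SimpleGraph.cycleGraph k)ᶜ ↪g G)

/-- `G` contains no odd prism. -/
def NoOddPrism {n : ℕ} (G : SimpleGraph (Fin n)) : Prop :=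
  ¬ ∃ (a1 a2 a3 b1 b2 b3 : Fin n) (p1 : G.Walk a1 b1) (p2 : G.Walk a2 b2) (p3 : G.Walk a3 b3),
    p1.IsPath ∧ p2.IsPath ∧ p3.IsPath ∧
    p1.length % 2 = 1 ∧ p2.length % 2 = 1 ∧ p3.length % 2 = 1 ∧
    (∀ w : Fin n, w ∈ p1.support → w ∉ p2.support) ∧
    (∀ w : Fin n, w ∈ p1.support → w ∉ p3.support) ∧
    (∀ w : Fin n, w ∈ p2.support → w ∉ p3.support) ∧
    ∀ u v : Fin n,
      (u ∈ p1.support ∨ u ∈ p2.support ∨ u ∈ p3.support) →
      (v ∈ p1.support ∨ v ∈ p2.support ∨ v ∈ p3.support) →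
      (G.Adj u v ↔
        (p1.toSubgraph.Adj u v ∨ p2.toSubgraph.Adj u v ∨ p3.toSubgraph.Adj u v ∨
         (u ≠ v ∧ (u = a1 ∨ u = a2 ∨ u = a3) ∧ (v = a1 ∨ v = a2 ∨ v = a3)) ∨
         (u ≠ v ∧ (u = b1 ∨ u = b2 ∨ u = b3) ∧ (v = b1 ∨ v = b2 ∨ v = b3))))

/-- The class of the conjecture: no odd hole, no antihole, no odd prism. -/
def InClass {n : ℕ} (G : SimpleGraph (Fin n)) : Prop :=
  NoOddHole G ∧ NoAntihole G ∧ NoOddPrism G

/-- The paths `p1`, `p2`, `p3` are the rungs of a prism (an induced subgraph of `G`) with the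
triangles `a1 a2 a3` and `b1 b2 b3`: as in `NoOddPrism`, but the parities are arbitrary. -/
def IsPrism {n : ℕ} (G : SimpleGraph (Fin n)) {a1 a2 a3 b1 b2 b3 : Fin n} (p1 : G.Walk a1 b1)
    (p2 : G.Walk a2 b2) (p3 : G.Walk a3 b3) : Prop :=
  p1.IsPath ∧ p2.IsPath ∧ p3.IsPath ∧
  1 ≤ p1.length ∧ 1 ≤ p2.length ∧ 1 ≤ p3.length ∧
  (∀ w : Fin n, w ∈ p1.support → w ∉ p2.support) ∧
  (∀ w : Fin n, w ∈ p1.support → w ∉ p3.support) ∧
  (∀ w : Fin n, w ∈ p2.support → w ∉ p3.support) ∧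
  ∀ u v : Fin n,
    (u ∈ p1.support ∨ u ∈ p2.support ∨ u ∈ p3.support) →
    (v ∈ p1.support ∨ v ∈ p2.support ∨ v ∈ p3.support) →
    (G.Adj u v ↔
      (p1.toSubgraph.Adj u v ∨ p2.toSubgraph.Adj u v ∨ p3.toSubgraph.Adj u v ∨
       (u ≠ v ∧ (u = a1 ∨ u = a2 ∨ u = a3) ∧ (v = a1 ∨ v = a2 ∨ v = a3)) ∨
       (u ≠ v ∧ (u = b1 ∨ u = b2 ∨ u = b3) ∧ (v = b1 ∨ v = b2 ∨ v = b3))))

/-- `v` is not a vertex of a triangle of a prism. -/
def NotCorner {n : ℕ} (G : SimpleGraph (Fin n)) (v : Fin n) : Prop :=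
  ∀ (a1 a2 a3 b1 b2 b3 : Fin n) (p1 : G.Walk a1 b1) (p2 : G.Walk a2 b2) (p3 : G.Walk a3 b3),
    IsPrism G p1 p2 p3 → v ≠ a1 ∧ v ≠ a2 ∧ v ≠ a3 ∧ v ≠ b1 ∧ v ≠ b2 ∧ v ≠ b3

/-- `v` is adjacent to at least two of the vertices `x`, `y`, `z`. -/
def SeesTwo {n : ℕ} (G : SimpleGraph (Fin n)) (v x y z : Fin n) : Prop :=
  (G.Adj v x ∧ G.Adj v y) ∨ (G.Adj v x ∧ G.Adj v z) ∨ (G.Adj v y ∧ G.Adj v z)

/-- No prism which does not contain `v` has two neighbours of `v` in each of its triangles. -/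
def NotMajor {n : ℕ} (G : SimpleGraph (Fin n)) (v : Fin n) : Prop :=
  ∀ (a1 a2 a3 b1 b2 b3 : Fin n) (p1 : G.Walk a1 b1) (p2 : G.Walk a2 b2) (p3 : G.Walk a3 b3),
    IsPrism G p1 p2 p3 → v ∉ p1.support → v ∉ p2.support → v ∉ p3.support →
    ¬ (SeesTwo G v a1 a2 a3 ∧ SeesTwo G v b1 b2 b3)

/-- All vertices of `T` are replaced by the single vertex `t` of `T`, whose neighbours are the
common neighbours of the vertices of `T`. (The other vertices of `T` become isolated.) -/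
def replaceByOne {n : ℕ} (G : SimpleGraph (Fin n)) (T : Set (Fin n)) (t : Fin n) :
    SimpleGraph (Fin n) where
  Adj a b := (a ∈ T → a = t) ∧ (b ∈ T → b = t) ∧ G.Adj a b ∧ (a = t → ∀ s ∈ T, G.Adj s b) ∧
    (b = t → ∀ s ∈ T, G.Adj s a)
  symm := ⟨fun _ _ h => ⟨h.2.1, h.1, h.2.2.1.symm, h.2.2.2.2, h.2.2.2.1⟩⟩
  loopless := ⟨fun _ h => G.loopless.irrefl _ h.2.2.1⟩

/-- `x`, `y` is an even pair: two nonadjacent vertices all of whose chordless paths are even. -/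
def EvenPair {n : ℕ} (G : SimpleGraph (Fin n)) (x y : Fin n) : Prop :=
  x ≠ y ∧ ¬ G.Adj x y ∧ ∀ p : G.Walk x y, p.IsPath →
    (∀ i j : ℕ, i + 1 < j → j ≤ p.length → ¬ G.Adj (p.getVert i) (p.getVert j)) →
    p.length % 2 = 0

/-- The graph `H` on one vertex less is obtained from `G` by the identification of `x` and `y`. -/
def IsContraction {n : ℕ} (G : SimpleGraph (Fin (n + 1))) (x y : Fin (n + 1))
    (H : SimpleGraph (Fin n)) : Prop :=
  ∃ φ : Fin (n + 1) → Fin n, Function.Surjective φ ∧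
    (∀ u v : Fin (n + 1), φ u = φ v ↔ (u = v ∨ (u = x ∧ v = y) ∨ (u = y ∧ v = x))) ∧
    H = SimpleGraph.fromRel (fun a b : Fin n => ∃ u v : Fin (n + 1), φ u = a ∧ φ v = b ∧ G.Adj u v)

theorem shr_eq {n : ℕ} (G : SimpleGraph (Fin n)) (T : Set (Fin n)) (t : Fin n) :
    replaceByOne G T t = Pool.Agent.H52.CV.shr G T t := rfl

theorem nco_of {n : ℕ} (G : SimpleGraph (Fin n)) (v : Fin n) (h : NotCorner G v) :
    Pool.Agent.H52.ER2.NCo G v := by
  intro a b m P hP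
  obtain ⟨p0, p1, p2, h1, -⟩ := Pool.Agent.H52.CV.prism_walks G a b m P hP
  obtain ⟨g1, g2, g3, g4, g5, g6⟩ := h _ _ _ _ _ _ p0 p1 p2 h1
  intro i
  fin_cases i
  · exact ⟨g1, g4⟩
  · exact ⟨g2, g5⟩
  · exact ⟨g3, g6⟩

theorem two_of {n : ℕ} (G : SimpleGraph (Fin n)) (v : Fin n) (a : Fin 3 → Fin n)
    (h : ∃ i j, i ≠ j ∧ G.Adj v (a i) ∧ G.Adj v (a j)) : SeesTwo G v (a 0) (a 1) (a 2) := by
  obtain ⟨i, j, hij, h1, h2⟩ := h
  unfold SeesTwo
  fin_cases i <;> fin_cases j <;> simp_all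

theorem tame_of {n : ℕ} (G : SimpleGraph (Fin n)) (v : Fin n) (h : NotMajor G v) :
    Pool.Agent.H52.ER2.Tame G v := by
  intro a b m P hP hv
  obtain ⟨p0, p1, p2, h1, h2⟩ := Pool.Agent.H52.CV.prism_walks G a b m P hP
  rintro ⟨ha, hb⟩
  exact h _ _ _ _ _ _ p0 p1 p2 h1 (fun h' => hv (h2 v (Or.inl h')))
    (fun h' => hv (h2 v (Or.inr (Or.inl h')))) (fun h' => hv (h2 v (Or.inr (Or.inr h'))))
    ⟨two_of G v a ha, two_of G v b hb⟩

/-- Let `G` be a graph without odd hole, antihole and odd prism, and let `T` be a set of vertices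
which induces a connected subgraph of the complement and which has two common neighbours that are
not adjacent. If in the graph in which `T` is replaced by one vertex `t` this vertex is not a
corner of a prism and is not adjacent to two vertices of each triangle of a prism which does not
contain `t`, then `T` has two common neighbours which are an even pair of `G` and whose contraction
leads to a graph without odd hole, antihole and odd prism. -/
theorem result : ∀ (n : ℕ) (G : SimpleGraph (Fin (n + 1))) (T : Set (Fin (n + 1)))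
    (t : Fin (n + 1)), InClass G → t ∈ T → (Gᶜ.induce T).Connected →
    (∃ p q : Fin (n + 1), p ≠ q ∧ ¬ G.Adj p q ∧ ∀ s ∈ T, G.Adj s p ∧ G.Adj s q) →
    NotCorner (replaceByOne G T t) t → NotMajor (replaceByOne G T t) t →
    ∃ x y : Fin (n + 1), (∀ s ∈ T, G.Adj s x ∧ G.Adj s y) ∧ EvenPair G x y ∧
      ∀ H : SimpleGraph (Fin n), IsContraction G x y H → InClass H := by
  rintro n G T t ⟨h1, h2, h3⟩ ht hT ⟨p, q, hpq, hn, hc⟩ hco hma
  have hG := Pool.Agent.H52.CV.cls_of_plain G h1 h2 h3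
  obtain ⟨x, y, hx, hy, hev, hcl⟩ := Pool.Agent.H52.CV.clean_set G hG T t ht hT
    (nco_of _ t hco) (tame_of _ t hma) p q hpq hn (fun s hs => (hc s hs).1)
    (fun s hs => (hc s hs).2)
  refine ⟨x, y, fun s hs => ⟨hx s hs, hy s hs⟩, Pool.Agent.H52.CV.plain_evp G x y hev, ?_⟩
  rintro H ⟨φ, hφ, hφe, rfl⟩
  exact Pool.Agent.H52.CV.plain_of_cls _
    (Pool.Agent.H52.CV.cls_contr G x y φ hev.1 hφ hφe hcl)

end Pool.Agent.Results.MP_816b90_co.CleanVertex
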