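import Pool.Agent.H48.ER2.All
import Pool.Agent.H29.ERO.All

/-!
MP_816b90_co: the Everett–Reed conjecture for all graphs without a clique of size four.
The notions are written as in the frozen statement `S09779`.
-/

set_option autoImplicit false

namespace Pool.Agent.Results.MP_816b90_co.K4Free

/-- `G` contains no odd hole (induced cycle of odd length at least five). -/
def NoOddHole {n : ℕ} (G : SimpleGraph (Fin n)) : Prop :=
  ¬ ∃ k : ℕ, 5 ≤ k ∧ k % 2 = 1 ∧ Nonempty (SimpleGraph.cycleGraph k ↪g G)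

/-- `G` contains no antihole (complement of a cycle of length at least five). -/
def NoAntihole {n : ℕ} (G : SimpleGraph (Fin n)) : Prop :=
  ¬ ∃ k : ℕ, 5 ≤ k ∧ Nonempty ((SimpleGraph.cycleGraph k)ᶜ ↪g G)

/-- `G` contains no odd prism. -/
def NoOddPrism {n : ℕ} (G : SimpleGraph (Fin n)) : Prop :=
  ¬ ∃ (a1 a2 a3 b1 b2 b3 : Fin n) (p1 : G.Walk a1 b1) (p2 : G.Walk a2 b2) (p3 : G.Walk a3 b3),
    p1.IsPath ∧ p2.IsPath ∧ p3.IsPath ∧
    p1.length % 2 = 1 ∧ p2.length % 2 = 1 ∧ p3.length % 2 = 1 ∧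
    (∀ w : Fin n, w ∈ p1.support → w ∉ p2.support) ∧
    (∀ w : Fin n, w ∈ p1.support → w ∉ p3.support) ∧
    (∀ w : Fin n, w ∈ p2.support → w ∉ p3.support) ∧
    ∀ u v : Fin n,
      (u ∈ p1.support ∨ u ∈ p2.support ∨ u ∈ p3.support) →
      (v ∈ p1.support ∨ v ∈ p2.support ∨ v ∈ p3.support) →
      (G.Adj u v ↔
        (p1.toSubgraph.Adj u v ∨ p2.toSubgraph.Adj u v ∨ p3.toSubgraph.Adj u v ∨
         (u ≠ v ∧ (u = a1 ∨ u = a2 ∨ u = a3) ∧ (v = a1 ∨ v = a2 ∨ v = a3)) ∨
         (u ≠ v ∧ (u = b1 ∨ u = b2 ∨ u = b3) ∧ (v = b1 ∨ v = b2 ∨ v = b3))))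

/-- The class `P` of graphs contains the complete graphs, and with the graph obtained from `H` by
the contraction of an even pair `x`, `y` (a pair of nonadjacent vertices all of whose chordless
paths are even) it contains `H`. The map `φ` identifies `x` and `y` and no other vertices. -/
def ClosedUnderContraction (P : (k : ℕ) → SimpleGraph (Fin k) → Prop) : Prop :=
  (∀ k : ℕ, P k (⊤ : SimpleGraph (Fin k))) ∧
  (∀ (k : ℕ) (H : SimpleGraph (Fin (k+1))) (x y : Fin (k+1)) (φ : Fin (k+1) → Fin k),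
    x ≠ y → ¬ H.Adj x y →
    (∀ p : H.Walk x y, p.IsPath →
      (∀ i j : ℕ, i + 1 < j → j ≤ p.length → ¬ H.Adj (p.getVert i) (p.getVert j)) →
      p.length % 2 = 0) →
    Function.Surjective φ →
    (∀ u v : Fin (k+1), φ u = φ v ↔ (u = v ∨ (u = x ∧ v = y) ∨ (u = y ∧ v = x))) →
    P k (SimpleGraph.fromRel (fun a b : Fin k => ∃ u v : Fin (k+1), φ u = a ∧ φ v = b ∧
      H.Adj u v)) →
    P (k+1) H)

/-- `G` is perfectly contractile: every induced subgraph can be turned into a complete graph by a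
sequence of contractions of even pairs. -/
def PerfectlyContractile {n : ℕ} (G : SimpleGraph (Fin n)) : Prop :=
  ∀ (m : ℕ) (e : Fin m ↪ Fin n) (P : (k : ℕ) → SimpleGraph (Fin k) → Prop),
    ClosedUnderContraction P → P m (SimpleGraph.comap (fun i : Fin m => e i) G)

/-- The Everett–Reed conjecture for graphs without a clique of size four: such a graph is perfectly
contractile if and only if it contains no odd hole, no antihole and no odd prism. -/
theorem result : ∀ (n : ℕ) (G : SimpleGraph (Fin n)), G.CliqueFree 4 →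
    (PerfectlyContractile G ↔ NoOddHole G ∧ NoAntihole G ∧ NoOddPrism G) := by
  intro n G hG
  constructor
  · intro h
    exact Pool.Agent.H29.ERO.frozen_mp n G (fun m e P h1 h2 => h m e P ⟨h1, h2⟩)
  · rintro ⟨h1, h2, h3⟩ m e P hP
    exact Pool.Agent.H48.ER2.c_K4M n G (Pool.Agent.H48.ER2.k4free_of G hG) h1 h2 h3 m e P hP

end Pool.Agent.Results.MP_816b90_co.K4Free
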