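import Pool.Agent.H48.ER.All

/-!
MP_816b90_co: the Everett–Reed conjecture for all graphs of treewidth at most three.
The notions are written as in the frozen statement `S09779`.
-/

set_option autoImplicit false

namespace Pool.Agent.Results.MP_816b90_co.TreewidthThree

/-- `G` has treewidth at most three: there is a tree decomposition (a tree `T` with a bag `B i` for
every node `i`; every vertex and every edge is in a bag; the nodes whose bags contain a given vertex
form a connected part of `T`) in which every bag has at most four vertices. -/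
def TreewidthAtMostThree {n : ℕ} (G : SimpleGraph (Fin n)) : Prop :=
  ∃ (k : ℕ) (T : SimpleGraph (Fin k)) (B : Fin k → Finset (Fin n)), T.IsTree ∧
    (∀ i, (B i).card ≤ 4) ∧ (∀ v, ∃ i, v ∈ B i) ∧ (∀ u v, G.Adj u v → ∃ i, u ∈ B i ∧ v ∈ B i) ∧
    ∀ v, (T.induce {i | v ∈ B i}).Preconnected

/-- `G` contains no odd hole (induced cycle of odd length at least five). -/
def NoOddHole {n : ℕ} (G : SimpleGraph (Fin n)) : Prop :=
  ¬ ∃ k : ℕ, 5 ≤ k ∧ k % 2 = 1 ∧ Nonempty (SimpleGraph.cycleGraph k ↪g G)

/-- `G` contains no odd prism. -/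
def NoOddPrism {n : ℕ} (G : SimpleGraph (Fin n)) : Prop :=
  ¬ ∃ (a1 a2 a3 b1 b2 b3 : Fin n) (p1 : G.Walk a1 b1) (p2 : G.Walk a2 b2) (p3 : G.Walk a3 b3),
    p1.IsPath ∧ p2.IsPath ∧ p3.IsPath ∧
    p1.length % 2 = 1 ∧ p2.length % 2 = 1 ∧ p3.length % 2 = 1 ∧
    (∀ w : Fin n, w ∈ p1.support → w ∉ p2.support) ∧
    (∀ w : Fin n, w ∈ p1.support → w ∉ p3.support) ∧
    (∀ w : Fin n, w ∈ p2.support → w ∉ p3.support) ∧
    ∀ u v : Fin n,
      (u ∈ p1.support ∨ u ∈ p2.support ∨ u ∈ p3.support) →
      (v ∈ p1.support ∨ v ∈ p2.support ∨ v ∈ p3.support) →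
      (G.Adj u v ↔
        (p1.toSubgraph.Adj u v ∨ p2.toSubgraph.Adj u v ∨ p3.toSubgraph.Adj u v ∨
         (u ≠ v ∧ (u = a1 ∨ u = a2 ∨ u = a3) ∧ (v = a1 ∨ v = a2 ∨ v = a3)) ∨
         (u ≠ v ∧ (u = b1 ∨ u = b2 ∨ u = b3) ∧ (v = b1 ∨ v = b2 ∨ v = b3))))

/-- The class `P` of graphs contains the complete graphs, and with the graph obtained from `H` by
the contraction of an even pair `x`, `y` (a pair of nonadjacent vertices all of whose chordless
paths are even) it contains `H`. The map `φ` identifies `x` and `y` and no other vertices. -/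
def ClosedUnderContraction (P : (k : ℕ) → SimpleGraph (Fin k) → Prop) : Prop :=
  (∀ k : ℕ, P k (⊤ : SimpleGraph (Fin k))) ∧
  (∀ (k : ℕ) (H : SimpleGraph (Fin (k+1))) (x y : Fin (k+1)) (φ : Fin (k+1) → Fin k),
    x ≠ y → ¬ H.Adj x y →
    (∀ p : H.Walk x y, p.IsPath →
      (∀ i j : ℕ, i + 1 < j → j ≤ p.length → ¬ H.Adj (p.getVert i) (p.getVert j)) →
      p.length % 2 = 0) →
    Function.Surjective φ →
    (∀ u v : Fin (k+1), φ u = φ v ↔ (u = v ∨ (u = x ∧ v = y) ∨ (u = y ∧ v = x))) →
    P k (SimpleGraph.fromRel (fun a b : Fin k => ∃ u v : Fin (k+1), φ u = a ∧ φ v = b ∧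
      H.Adj u v)) →
    P (k+1) H)

/-- `G` is perfectly contractile: every induced subgraph can be turned into a complete graph by a
sequence of contractions of even pairs. -/
def PerfectlyContractile {n : ℕ} (G : SimpleGraph (Fin n)) : Prop :=
  ∀ (m : ℕ) (e : Fin m ↪ Fin n) (P : (k : ℕ) → SimpleGraph (Fin k) → Prop),
    ClosedUnderContraction P → P m (SimpleGraph.comap (fun i : Fin m => e i) G)

/-- The Everett–Reed conjecture for graphs of treewidth at most three: a graph of treewidth at most
three which contains no odd hole and no odd prism is perfectly contractile. (Antiholes with at least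
seven vertices have treewidth at least four, the antiholes with five and six vertices are an odd hole
and an odd prism.) -/
theorem result : ∀ (n : ℕ) (G : SimpleGraph (Fin n)), TreewidthAtMostThree G → NoOddHole G →
    NoOddPrism G → PerfectlyContractile G :=
  fun n G h1 h2 h3 m e P hP => Pool.Agent.H48.ER.c_MAIN n G h1 h2 h3 m e P hP

end Pool.Agent.Results.MP_816b90_co.TreewidthThree
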